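import Mathlib

set_option autoImplicit false

namespace Pool.Agent.Results.MP_bd2bbd_co.Counter

/-- `l` lists the vertices of a simple `u`-`v` path of the complete graph. -/
def IsP {n : ℕ} (u v : Fin n) (l : List (Fin n)) : Prop :=
  l.Nodup ∧ l.head? = some u ∧ l.getLast? = some v

/-- total weight of the edges between consecutive vertices of `l`. -/
def wt {n : ℕ} (w : Sym2 (Fin n) → ℝ) (l : List (Fin n)) : ℝ :=
  (List.zipWith (fun a b => w s(a, b)) l l.tail).sum

def tb : List (Fin 7 × Fin 7 × Fin 7) :=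
  [(0, 5, 2), (2, 3, 6), (0, 6, 4), (0, 3, 1), (4, 5, 3), (1, 6, 5)]

def P0 (u v : Fin 7) : List (Fin 7) :=
  u :: ((tb.filter fun q => (q.1 = u ∧ q.2.1 = v) ∨ (q.1 = v ∧ q.2.1 = u)).map (·.2.2) ++ [v])

theorem result : ∃ (n : ℕ) (P : Fin n → Fin n → List (Fin n)),
    (∀ u v, u ≠ v → IsP u v (P u v) ∧ P v u = (P u v).reverse) ∧
    (∀ u v, u ≠ v → ∀ a ∈ P u v, a ≠ u → a ≠ v → P u v = P u a ++ (P a v).tail) ∧
    (∀ u v, u ≠ v → (P u v).length ≤ 3) ∧ (∃ u v, u ≠ v ∧ (P u v).length = 3) ∧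
    (∀ i j k a b, i ≠ j → i ≠ k → j ≤ k → P i j = [i, a, j] → P i k = [i, b, k] → a ≤ b) ∧
    ¬ ∃ w : Sym2 (Fin n) → ℝ, (∀ a b, a ≠ b → 0 < w s(a, b)) ∧
      ∀ u v, u ≠ v → ∀ l, IsP u v l → l ≠ P u v → wt w (P u v) < wt w l := by
  refine ⟨7, P0, by unfold IsP; decide +kernel, by decide +kernel, by decide +kernel,
    by decide +kernel, fun i j k a b _ _ h h1 h2 => ?_, ?_⟩
  · have := (by decide +kernel : ∀ i j k : Fin 7, j ≤ k → (P0 i j).length = 3 →
      (P0 i k).length = 3 → (P0 i j).getD 1 0 ≤ (P0 i k).getD 1 0) i j k h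
      (by rw [h1]; rfl) (by rw [h2]; rfl)
    rwa [h1, h2] at this
  · rintro ⟨w, -, h⟩
    have key : ∀ u v z c : Fin 7, P0 u v = [u, z, v] → [u, c, v].Nodup → c ≠ z →
        w s(u, z) + w s(z, v) < w s(u, c) + w s(c, v) := by
      intro u v z c h1 h2 h3
      have := h u v (by rintro rfl; simp at h2) [u, c, v] ⟨h2, rfl, rfl⟩ (by simp [h1, h3])
      simpa [h1, wt] using this
    have a1 := key 0 5 2 1 (by decide) (by decide) (by decide)
    have a2 := key 2 3 6 5 (by decide) (by decide) (by decide)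
    have a3 := key 0 6 4 2 (by decide) (by decide) (by decide)
    have a4 := key 0 3 1 4 (by decide) (by decide) (by decide)
    have a5 := key 4 5 3 6 (by decide) (by decide) (by decide)
    have a6 := key 1 6 5 3 (by decide) (by decide) (by decide)
    rw [Sym2.eq_swap (a := 6), Sym2.eq_swap (a := 5)] at a2
    rw [Sym2.eq_swap (a := 6)] at a5
    linarith

end Pool.Agent.Results.MP_bd2bbd_co.Counter
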